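import Pool.Agent.Q39.Bhargava

/-!
# The proposed formula for the Bhargava factorial of the set of twin primes fails at `n = 22`

The prime `23` is not a twin prime, so no twin prime is divisible by `23`, and `23` divides
`22!_{P_2}`; but the set of all primes meets every class modulo `23`, so `23` does not divide
`22!_P`, nor `2 w_2(22) 22!_P`.
-/

set_option autoImplicit false

namespace Pool.Agent.Results.MP_e482b1_nt.TwinIdentityFails

open Pool.Agent.Q39.Bhargava

/-- The set of the primes, as a set of integers. -/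
def primeSet : Set ℤ := {x | ∃ q : ℕ, q.Prime ∧ x = q}

/-- The set of the twin primes: the primes `q` such that `q + 2` or `q - 2` is prime. -/
def twinPrimes : Set ℤ := {x | ∃ q : ℕ, q.Prime ∧ ((q + 2).Prime ∨ (q - 2).Prime) ∧ x = q}

/-- `w p m`, the largest power of `p` dividing `m`. -/
def w (p m : ℕ) : ℕ := p ^ padicValNat p m

lemma dvd_prime {q p : ℕ} (hq : q.Prime) (hp : p.Prime) (h : (q : ℤ) ∣ (p : ℤ)) : p = q := by
  have h1 : q ∣ p := by exact_mod_cast h
  exact ((Nat.prime_dvd_prime_iff_eq hq hp).1 h1).symm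

lemma twin_missing : ∀ x ∈ twinPrimes, ¬ ((23 : ℕ) : ℤ) ∣ x := by
  rintro x ⟨q, hq, h, rfl⟩ hd
  have h23 : q = 23 := dvd_prime (by norm_num) hq hd
  subst h23
  rcases h with h | h
  · revert h; norm_num
  · revert h; norm_num

lemma primes_full : ∀ r : ZMod 23, ∃ x ∈ primeSet, ((x : ℤ) : ZMod 23) = r := by
  have key : ∀ m < 23, ∃ q ∈ [23, 47, 2, 3, 73, 5, 29, 7, 31, 101, 79, 11, 127, 13, 37, 61, 131,
      17, 41, 19, 43, 67, 137], q % 23 = m := by decide
  have hpr : ∀ q ∈ [23, 47, 2, 3, 73, 5, 29, 7, 31, 101, 79, 11, 127, 13, 37, 61, 131,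
      17, 41, 19, 43, 67, 137], Nat.Prime q := by
    intro q hq
    simp only [List.mem_cons, List.not_mem_nil, or_false] at hq
    rcases hq with rfl | rfl | rfl | rfl | rfl | rfl | rfl | rfl | rfl | rfl | rfl | rfl | rfl | rfl | rfl | rfl | rfl |
      rfl | rfl | rfl | rfl | rfl | rfl <;> norm_num
  intro r
  obtain ⟨q, hq, hqr⟩ := key r.val (ZMod.val_lt r)
  refine ⟨(q : ℤ), ⟨q, hpr q hq, rfl⟩, ?_⟩
  have h1 : ((q : ℕ) : ZMod 23) = ((r.val : ℕ) : ZMod 23) := by
    rw [← hqr, ZMod.natCast_mod]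
  have h2 : ((r.val : ℕ) : ZMod 23) = r := by
    exact ZMod.natCast_zmod_val r
  push_cast
  rw [h1, h2]

/-- The first `23` twin primes. -/
def twinList : Finset ℕ :=
  {3, 5, 7, 11, 13, 17, 19, 29, 31, 41, 43, 59, 61, 71, 73, 101, 103, 107, 109, 137, 139, 149, 151}

lemma twinList_prime : ∀ q ∈ twinList, q.Prime ∧ ((q + 2).Prime ∨ (q - 2).Prime) := by
  intro q hq
  simp only [twinList, Finset.mem_insert, Finset.mem_singleton] at hq
  rcases hq with rfl | rfl | rfl | rfl | rfl | rfl | rfl | rfl | rfl | rfl | rfl | rfl | rfl | rfl | rfl | rfl | rfl |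
      rfl | rfl | rfl | rfl | rfl | rfl <;> norm_num

lemma twin_encard : ((22 : ℕ) : ℕ∞) < twinPrimes.encard := by
  have h1 : ((twinList.image (fun q : ℕ => (q : ℤ)) : Finset ℤ) : Set ℤ) ⊆ twinPrimes := by
    intro x hx
    simp only [Finset.coe_image, Set.mem_image, Finset.mem_coe] at hx
    obtain ⟨q, hq, rfl⟩ := hx
    exact ⟨q, (twinList_prime q hq).1, (twinList_prime q hq).2, rfl⟩
  have h2 := Set.encard_le_encard h1
  rw [Set.encard_coe_eq_coe_finsetCard] at h2
  have h3 : (twinList.image (fun q : ℕ => (q : ℤ))).card = 23 := by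
    rw [Finset.card_image_of_injective _ Nat.cast_injective]
    rfl
  rw [h3] at h2
  exact lt_of_lt_of_le (by exact_mod_cast (by norm_num : 22 < 23)) h2

lemma primes_encard : ((22 : ℕ) : ℕ∞) < primeSet.encard := by
  refine lt_of_lt_of_le twin_encard (Set.encard_le_encard ?_)
  rintro x ⟨q, hq, -, rfl⟩
  exact ⟨q, hq, rfl⟩

/-- The identity `n!_{P_2} = 2 w_2(n) n!_P` fails for `n = 22`, where both factorials are
defined. -/
theorem result :
    (∃ F, IsFactorial primeSet 22 F) ∧ (∃ G, IsFactorial twinPrimes 22 G) ∧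
    (∀ F G, IsFactorial primeSet 22 F → IsFactorial twinPrimes 22 G → G ≠ 2 * w 2 22 * F) ∧
    ¬ (∀ n : ℕ, 1 ≤ n → ∀ F G, IsFactorial primeSet n F → IsFactorial twinPrimes n G →
      (G : ℚ) / (F : ℚ) = 2 * (w 2 n : ℚ)) := by
  have hw : w 2 22 = 2 := by
    unfold w
    have : padicValNat 2 22 = 1 := by
      have h : (22 : ℕ) = 2 ^ 1 * 11 := by norm_num
      rw [h, padicValNat.mul (by norm_num) (by norm_num), padicValNat.prime_pow,
        padicValNat.eq_zero_of_not_dvd (by norm_num)]
    rw [this]; norm_num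
  have key : ∀ F G, IsFactorial primeSet 22 F → IsFactorial twinPrimes 22 G →
      G ≠ 2 * w 2 22 * F := by
    intro F G hF hG
    exact ne_of_missing_full (q := 23) (by norm_num) twin_missing primes_full hG hF
      (by rw [hw]; norm_num)
  refine ⟨exists_factorial primes_encard, exists_factorial twin_encard, key, ?_⟩
  intro h
  obtain ⟨F, hF⟩ := exists_factorial primes_encard
  obtain ⟨G, hG⟩ := exists_factorial twin_encard
  apply key F G hF hG
  have h1 := h 22 (by norm_num) F G hF hG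
  have hF0 : (F : ℚ) ≠ 0 := by exact_mod_cast hF.2.1.ne'
  rw [div_eq_iff hF0] at h1
  exact_mod_cast h1

end Pool.Agent.Results.MP_e482b1_nt.TwinIdentityFails
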